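import Pool.Agent.Q98.SPN.Stm

/-!
# Project GSP, package CNT: the number of arrays
-/

set_option autoImplicit false

namespace Pool.Agent.U894.GSP.CNT

open Finset
open Pool.Agent.Q98.SPN
open Pool.Agent.H172R2.GS (arrays)

theorem geom_le (q : ℕ) (z : ℝ) (hz : 0 < z) (hz2 : z ≤ 1 / 2) :
    ∑ j ∈ range (q + 1), z ^ j ≤ Real.exp (2 * z) := by
  have h1 : (∑ j ∈ range (q + 1), z ^ j) * (1 - z) = 1 - z ^ (q + 1) := by
    have := geom_sum_mul z (q + 1)
    linarith
  have h2 : 0 < z ^ (q + 1) := pow_pos hz _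
  have h3 : ∑ j ∈ range (q + 1), z ^ j ≤ 1 + 2 * z := by
    have h4 : (∑ j ∈ range (q + 1), z ^ j) * (1 - z) ≤ (1 + 2 * z) * (1 - z) := by
      rw [h1]; nlinarith
    exact le_of_mul_le_mul_right h4 (by linarith)
  have h5 := Real.add_one_le_exp (2 * z)
  linarith

theorem t_CNT : S_CNT := by
  intro ι _ _ q z hz hz2
  have h1 : ((arrays ι q).card : ℝ) * z ^ q ≤ ∑ r ∈ arrays ι q, z ^ (∑ i, r i) := by
    rw [← nsmul_eq_mul, ← Finset.sum_const]
    refine Finset.sum_le_sum fun r hr => ?_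
    have hr' : ∑ i, r i ≤ q := (Finset.mem_filter.1 hr).2
    exact pow_le_pow_of_le_one hz.le (by linarith) hr'
  have h2 : ∑ r ∈ arrays ι q, z ^ (∑ i, r i) ≤
      ∑ r ∈ Fintype.piFinset fun _ : ι => range (q + 1), ∏ i, z ^ (r i) := by
    refine (Finset.sum_le_sum_of_subset_of_nonneg (Finset.filter_subset _ _)
      fun r _ _ => by positivity).trans (le_of_eq ?_)
    refine Finset.sum_congr rfl fun r _ => ?_
    rw [Finset.prod_pow_eq_pow_sum]
  have h3 : ∑ r ∈ Fintype.piFinset fun _ : ι => range (q + 1), ∏ i, z ^ (r i) =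
      ∏ _i : ι, ∑ j ∈ range (q + 1), z ^ j := by
    rw [Finset.prod_univ_sum]
  have h4 : ∏ _i : ι, ∑ j ∈ range (q + 1), z ^ j ≤ Real.exp (2 * z * Fintype.card ι) := by
    rw [Finset.prod_const, Finset.card_univ, mul_comm (2 * z), Real.exp_nat_mul]
    exact pow_le_pow_left₀ (Finset.sum_nonneg fun j _ => by positivity) (geom_le q z hz hz2) _
  calc ((arrays ι q).card : ℝ) * z ^ q ≤ _ := h1
    _ ≤ _ := h2
    _ = _ := h3
    _ ≤ _ := h4

end Pool.Agent.U894.GSP.CNT
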